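import Mathlib
import Pool.Agent.H628R4.HHH
import Pool.Agent.H628R4.Occ

namespace Pool.Agent.Results.MP_96ff56_al.OddRectangles

/-- `(V^{⊗ b})^{⊗ a}`: multilinear maps on `V^*`; the slot `(i, j)` is the `j`-th factor of the
`i`-th block. -/
abbrev Tens (V : Type) [AddCommGroup V] [Module ℂ V] (a b : ℕ) : Type :=
  MultilinearMap ℂ (fun _ : Fin a × Fin b => Module.Dual ℂ V) ℂ

/-- membership in `S^a(S^b V)`: invariance under the permutations of the factors inside each block
and under the permutations of the blocks -/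
def InSymSym {V : Type} [AddCommGroup V] [Module ℂ V] {a b : ℕ} (T : Tens V a b) : Prop :=
  (∀ (ρ : Fin a → Equiv.Perm (Fin b)) (v : Fin a × Fin b → Module.Dual ℂ V),
    T (fun p => v (p.1, ρ p.1 p.2)) = T v) ∧
  ∀ (σ : Equiv.Perm (Fin a)) (v : Fin a × Fin b → Module.Dual ℂ V),
    T (fun p => v (σ p.1, p.2)) = T v

/-- `g T = det(g)^d T` for every `g ∈ GL(V)`, where `(g T)(v) = T(v ∘ g)` -/
def IsDetPow {V : Type} [AddCommGroup V] [Module ℂ V] {a b : ℕ} (d : ℕ) (T : Tens V a b) : Prop :=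
  ∀ (g : V ≃ₗ[ℂ] V) (v : Fin a × Fin b → Module.Dual ℂ V),
    T (fun p => (v p).comp (g : V →ₗ[ℂ] V)) = (LinearMap.det (g : V →ₗ[ℂ] V)) ^ d * T v

/-- `T` lies in the `S_{(d^n)} V`-isotypic component of `S^d(S^n V)`; for `dim V = n`, where
`S_{(d^n)} V = det^d` -/
def InRect {V : Type} [AddCommGroup V] [Module ℂ V] {d n : ℕ} (T : Tens V d n) : Prop :=
  InSymSym T ∧ IsDetPow d T

/-- regroup: the `j`-th new block collects the `j`-th factors of the old blocks -/
def regroup {W : Type} {d n : ℕ} (S : (Fin d × Fin n → W) → ℂ) (v : Fin n × Fin d → W) : ℂ :=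
  S (fun p => v (p.2, p.1))

/-- symmetrization inside each block -/
noncomputable def symInside {W : Type} {a b : ℕ} (S : (Fin a × Fin b → W) → ℂ)
    (v : Fin a × Fin b → W) : ℂ :=
  (∑ ρ : Fin a → Equiv.Perm (Fin b), S (fun p => v (p.1, ρ p.1 p.2))) / (b.factorial : ℂ) ^ a

/-- symmetrization over the blocks -/
noncomputable def symBlocks {W : Type} {a b : ℕ} (S : (Fin a × Fin b → W) → ℂ)
    (v : Fin a × Fin b → W) : ℂ :=
  (∑ σ : Equiv.Perm (Fin a), S (fun p => v (σ p.1, p.2))) / (a.factorial : ℂ)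

/-- the Hermite-Hadamard-Howe map `h_{d,n}`; the value is a function on `(V^*)^{nd}`, with `n` blocks
of `d` slots -/
noncomputable def hhh {V : Type} [AddCommGroup V] [Module ℂ V] {d n : ℕ} (T : Tens V d n) :
    (Fin n × Fin d → Module.Dual ℂ V) → ℂ :=
  symBlocks (symInside (regroup T))

open H628HHH in
lemma conv {V : Type} [AddCommGroup V] [Module ℂ V] {d n : ℕ} (T : Tens V d n) :
    InRect T ↔ T ∈ RectComponent V d n := by
  constructor
  · rintro ⟨⟨h1, h2⟩, h3⟩
    exact ⟨⟨fun ρ => MultilinearMap.ext (h1 ρ), fun σ => MultilinearMap.ext (h2 σ)⟩,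
      fun g => MultilinearMap.ext (h3 g)⟩
  · rintro ⟨⟨h1, h2⟩, h3⟩
    exact ⟨⟨fun ρ v => congrArg (fun S : Blocks V d n => S v) (h1 ρ),
      fun σ v => congrArg (fun S : Blocks V d n => S v) (h2 σ)⟩,
      fun g v => congrArg (fun S : Blocks V d n => S v) (h3 g)⟩

open H628HHH in
lemma vanish {V : Type} [AddCommGroup V] [Module ℂ V] [FiniteDimensional ℂ V] {d n : ℕ}
    (hd : Odd d) (hn : 2 ≤ n) (hV : Module.finrank ℂ V = n) (T : Tens V d n) (hT : InRect T) :
    hhh T = 0 := by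
  obtain ⟨hS, hD⟩ := (conv T).mp hT
  have h1 : symInside (regroup T) = 0 := by
    funext v
    have h2 := polar T (fun y => diag_zero hn hd (Module.finBasisOfFinrankEq ℂ V hV) hS hD y)
      (fun p => v (p.2, p.1))
    show (∑ ρ : Fin n → Equiv.Perm (Fin d), T (fun p => v (p.2, ρ p.2 p.1))) / _ = 0
    rw [h2, zero_div]
  funext v
  rw [hhh, h1]
  show (∑ σ : Equiv.Perm (Fin n), (0 : ℂ)) / _ = 0
  rw [Finset.sum_const_zero, zero_div]

/-- The answer to Q1 is negative: for `dim V = 4` the module `S_{(7^4)} V = det^7` occurs in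
`S^7(S^4 V)` and the Hermite-Hadamard-Howe map `h_{7,4}` vanishes on its isotypic component; more
generally `h_{d,n}` vanishes on the `S_{(d^n)} V`-isotypic component of `S^d(S^n V)`, `dim V = n`,
for every odd `d` and every `n ≥ 2`. -/
theorem result :
    (∀ (V : Type) [AddCommGroup V] [Module ℂ V] [FiniteDimensional ℂ V],
      Module.finrank ℂ V = 4 →
        (∃ T : Tens V 7 4, InRect T ∧ T ≠ 0) ∧ ∀ T : Tens V 7 4, InRect T → hhh T = 0) ∧
    (∀ d n : ℕ, Odd d → 2 ≤ n →
      ∀ (V : Type) [AddCommGroup V] [Module ℂ V] [FiniteDimensional ℂ V],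
        Module.finrank ℂ V = n → ∀ T : Tens V d n, InRect T → hhh T = 0) := by
  refine ⟨?_, ?_⟩
  · intro V _ _ _ hV
    refine ⟨?_, fun T hT => vanish (by decide) (by norm_num) hV T hT⟩
    obtain ⟨T, hT, hT0⟩ := (Submodule.ne_bot_iff _).mp (H628HHH.occurs hV)
    exact ⟨T, (conv T).mpr hT, hT0⟩
  · intro d n hd hn V _ _ _ hV T hT
    exact vanish hd hn hV T hT

end Pool.Agent.Results.MP_96ff56_al.OddRectangles
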